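import Pool.Agent.E8helper19.LC.Stm

/-!
# Project LC: potentials of bounded continuous functions on the curve

`u(x) = α ∫ G(|x - γ(s)|) g(s) ds` is bounded and continuous, and
`∫ u (-Δφ + μ² φ) = α ∫ g(s) φ(γ(s)) ds`.
-/

set_option autoImplicit false
open MeasureTheory Filter Topology Set Laplacian
open scoped ContDiff Real

namespace Pool.Agent.E8helper45.LC

open Pool.Agent.E8helper19.LC

noncomputable section

lemma Gk_neg (μ ρ : ℝ) : Gk μ (-ρ) = Gk μ ρ := by
  simp [Gk]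

lemma Gk_nonneg (μ ρ : ℝ) : 0 ≤ Gk μ ρ := by
  refine setIntegral_nonneg measurableSet_Ioi fun t ht => ?_
  have ht : (0 : ℝ) < t := ht
  positivity

lemma Gk_meas (μ : ℝ) : Measurable (Gk μ) := by
  have h : StronglyMeasurable (fun z : ℝ × ℝ =>
      (4 * π * z.2)⁻¹ * Real.exp (-(z.1 ^ 2 / (4 * z.2) + μ ^ 2 * z.2))) := by
    apply Measurable.stronglyMeasurable
    fun_prop
  exact (h.integral_prod_right (ν := volume.restrict (Ioi (0 : ℝ)))).measurable

lemma mu_pos {α k : ℝ} (hk : 0 < k) (h : 2 * k < α) : 0 < mu α k := by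
  unfold mu
  apply Real.sqrt_pos.mpr
  nlinarith

lemma mu_sq {α k : ℝ} (hk : 0 < k) (h : 2 * k < α) : mu α k ^ 2 = α ^ 2 / 4 - k ^ 2 := by
  unfold mu
  apply Real.sq_sqrt
  nlinarith

/-- the Green function decreases -/
lemma Gk_anti (hG : S_G) {μ : ℝ} (hμ : 0 < μ) {x y : ℝ} (hx : 0 < x) (hxy : x ≤ y) :
    Gk μ y ≤ Gk μ x := by
  obtain ⟨h1, _, h3, _⟩ := hG
  rw [(h1 μ x hμ hx).2, (h1 μ y hμ (hx.trans_le hxy)).2]
  exact h3 _ _ (by positivity) (by gcongr)

/-- a parameter of a nearest point -/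
lemma exists_near {γ : ℝ → P} (hγ : Continuous γ) {c : ℝ} (hc : 0 < c)
    (hch : ∀ s t, c * |s - t| ≤ ‖γ s - γ t‖) (x : P) :
    ∃ s₀ : ℝ, ∀ s, c / 2 * |s - s₀| ≤ ‖x - γ s‖ := by
  have hcont : Continuous fun s => ‖x - γ s‖ := by fun_prop
  have hlim : Tendsto (fun s => ‖x - γ s‖) (cocompact ℝ) atTop := by
    have h1 : Tendsto (fun s : ℝ => c * |s| - ‖x - γ 0‖) (cocompact ℝ) atTop := by
      apply tendsto_atTop_add_const_right
      exact (tendsto_norm_cocompact_atTop (E := ℝ)).const_mul_atTop hc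
    refine tendsto_atTop_mono (fun s => ?_) h1
    have h2 := hch s 0
    rw [sub_zero] at h2
    have h3 : ‖γ s - γ 0‖ ≤ ‖x - γ s‖ + ‖x - γ 0‖ := by
      have : γ s - γ 0 = -(x - γ s) + (x - γ 0) := by abel
      rw [this]
      exact (norm_add_le _ _).trans (by rw [norm_neg])
    linarith
  obtain ⟨s₀, hs₀⟩ := hcont.exists_forall_le hlim
  refine ⟨s₀, fun s => ?_⟩
  have h1 := hch s s₀
  have h3 : ‖γ s - γ s₀‖ ≤ ‖x - γ s‖ + ‖x - γ s₀‖ := by
    have : γ s - γ s₀ = -(x - γ s) + (x - γ s₀) := by abel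
    rw [this]
    exact (norm_add_le _ _).trans (by rw [norm_neg])
  have h4 := hs₀ s
  linarith

lemma ne_ae (s₀ : ℝ) : ∀ᵐ s : ℝ, s ≠ s₀ := by
  rw [ae_iff]
  simp

/-- integrability of the kernel along a line -/
lemma int_line (hG : S_G) {μ : ℝ} (hμ : 0 < μ) {c : ℝ} (hc : 0 < c) :
    Integrable (fun s : ℝ => Gk μ |c / 2 * s|) :=
  (hG.2.2.2.2.1 μ hμ).comp_mul_left' (by positivity)

lemma int_line' (hG : S_G) {μ : ℝ} (hμ : 0 < μ) {c : ℝ} (hc : 0 < c) (s₀ : ℝ) :
    Integrable (fun s : ℝ => Gk μ |c / 2 * (s - s₀)|) :=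
  (int_line hG hμ hc).comp_sub_right s₀

section

variable {γ : ℝ → P} {c μ : ℝ}

lemma le_line (hG : S_G) (hμ : 0 < μ) (hc : 0 < c) {x : P} {s₀ : ℝ}
    (h : ∀ s, c / 2 * |s - s₀| ≤ ‖x - γ s‖) {s : ℝ} (hs : s ≠ s₀) :
    Gk μ ‖x - γ s‖ ≤ Gk μ |c / 2 * (s - s₀)| := by
  have h0 : 0 < |s - s₀| := abs_pos.mpr (sub_ne_zero.mpr hs)
  have : |c / 2 * (s - s₀)| = c / 2 * |s - s₀| := by
    rw [abs_mul, abs_of_pos (by positivity : (0 : ℝ) < c / 2)]
  rw [this]
  exact Gk_anti hG hμ (by positivity) (h s)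

lemma meas_curve (hγ : Continuous γ) (μ : ℝ) (x : P) : Measurable fun s => Gk μ ‖x - γ s‖ :=
  (Gk_meas μ).comp (by fun_prop : Continuous fun s => ‖x - γ s‖).measurable

/-- integrability of the kernel along the curve -/
lemma int_curve (hG : S_G) (hμ : 0 < μ) (hγ : Continuous γ) (hc : 0 < c)
    (hch : ∀ s t, c * |s - t| ≤ ‖γ s - γ t‖) (x : P) :
    Integrable (fun s => Gk μ ‖x - γ s‖) ∧
      ∫ s, Gk μ ‖x - γ s‖ ≤ ∫ s : ℝ, Gk μ |c / 2 * s| := by
  obtain ⟨s₀, hs₀⟩ := exists_near hγ hc hch x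
  have hle : ∀ᵐ s : ℝ, Gk μ ‖x - γ s‖ ≤ Gk μ |c / 2 * (s - s₀)| := by
    filter_upwards [ne_ae s₀] with s hs
    exact le_line hG hμ hc hs₀ hs
  have hint : Integrable (fun s => Gk μ ‖x - γ s‖) := by
    refine (int_line' hG hμ hc s₀).mono' (meas_curve hγ μ x).aestronglyMeasurable ?_
    filter_upwards [hle] with s hs
    rw [Real.norm_eq_abs, abs_of_nonneg (Gk_nonneg _ _)]
    exact hs
  refine ⟨hint, ?_⟩
  rw [← integral_sub_right_eq_self (fun s : ℝ => Gk μ |c / 2 * s|) s₀]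
  exact integral_mono_ae hint (int_line' hG hμ hc s₀) hle

/-- the truncation error -/
lemma trunc_curve (hG : S_G) (hμ : 0 < μ) (hγ : Continuous γ) (hc : 0 < c)
    (hch : ∀ s t, c * |s - t| ≤ ‖γ s - γ t‖) {ε : ℝ} (_hε : 0 < ε) (x : P) :
    Integrable (fun s => Gk μ (max ‖x - γ s‖ ε)) ∧
    ∫ s, |Gk μ ‖x - γ s‖ - Gk μ (max ‖x - γ s‖ ε)| ≤
      ∫ s : ℝ, {s : ℝ | |c / 2 * s| < ε}.indicator (fun s => Gk μ |c / 2 * s|) s := by
  obtain ⟨s₀, hs₀⟩ := exists_near hγ hc hch x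
  have hm2 : Measurable fun s => Gk μ (max ‖x - γ s‖ ε) :=
    (Gk_meas μ).comp (by fun_prop : Continuous fun s => max ‖x - γ s‖ ε).measurable
  have hint := (int_curve hG hμ hγ hc hch x).1
  have hle : ∀ᵐ s : ℝ, Gk μ (max ‖x - γ s‖ ε) ≤ Gk μ ‖x - γ s‖ := by
    filter_upwards [ne_ae s₀] with s hs
    have h0 : 0 < |s - s₀| := abs_pos.mpr (sub_ne_zero.mpr hs)
    have h1 := hs₀ s
    have h2 : 0 < ‖x - γ s‖ := lt_of_lt_of_le (by positivity) h1
    exact Gk_anti hG hμ h2 (le_max_left _ _)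
  have hint2 : Integrable (fun s => Gk μ (max ‖x - γ s‖ ε)) := by
    refine hint.mono' hm2.aestronglyMeasurable ?_
    filter_upwards [hle] with s hs
    rw [Real.norm_eq_abs, abs_of_nonneg (Gk_nonneg _ _)]
    exact hs
  refine ⟨hint2, ?_⟩
  have hms : MeasurableSet {s : ℝ | |c / 2 * s| < ε} :=
    (isOpen_lt (by fun_prop) continuous_const).measurableSet
  rw [← integral_sub_right_eq_self
    (fun s : ℝ => {s : ℝ | |c / 2 * s| < ε}.indicator (fun s => Gk μ |c / 2 * s|) s) s₀]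
  refine integral_mono_ae (hint.sub hint2).abs
    (((int_line hG hμ hc).indicator hms).comp_sub_right s₀) ?_
  filter_upwards [hle, ne_ae s₀] with s h1 hs
  have h0 : 0 ≤ {s : ℝ | |c / 2 * s| < ε}.indicator (fun s => Gk μ |c / 2 * s|) (s - s₀) :=
    Set.indicator_nonneg (fun _ _ => Gk_nonneg _ _) _
  rcases le_or_gt ε ‖x - γ s‖ with h2 | h2
  · rw [max_eq_left h2, sub_self, abs_zero]
    exact h0
  · have h3 : |c / 2 * (s - s₀)| < ε := by
      rw [abs_mul, abs_of_pos (by positivity : (0 : ℝ) < c / 2)]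
      exact (hs₀ s).trans_lt h2
    rw [Set.indicator_of_mem (by exact h3), abs_of_nonneg (by linarith)]
    have h4 := le_line hG hμ hc hs₀ hs
    have h5 := Gk_nonneg μ (max ‖x - γ s‖ ε)
    linarith

/-- the truncation errors tend to `0` -/
lemma trunc_lim (hG : S_G) (hμ : 0 < μ) (hc : 0 < c) :
    Tendsto (fun n : ℕ => ∫ s : ℝ, {s : ℝ | |c / 2 * s| < 1 / ((n : ℝ) + 1)}.indicator
      (fun s => Gk μ |c / 2 * s|) s) atTop (𝓝 0) := by
  have h0 : (0 : ℝ) = ∫ _ : ℝ, (0 : ℝ) := by simp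
  rw [h0]
  refine tendsto_integral_of_dominated_convergence (fun s => Gk μ |c / 2 * s|) (fun n => ?_)
    (int_line hG hμ hc) (fun n => ?_) ?_
  · have hms : MeasurableSet {s : ℝ | |c / 2 * s| < 1 / ((n : ℝ) + 1)} :=
      (isOpen_lt (by fun_prop) continuous_const).measurableSet
    exact ((int_line hG hμ hc).indicator hms).aestronglyMeasurable
  · refine Eventually.of_forall fun s => ?_
    rw [norm_indicator_eq_indicator_norm]
    refine (Set.indicator_le_self' (fun _ _ => norm_nonneg _) _).trans ?_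
    rw [Real.norm_eq_abs, abs_of_nonneg (Gk_nonneg _ _)]
  · filter_upwards [ne_ae 0] with s hs
    have h1 : 0 < |c / 2 * s| := abs_pos.mpr (mul_ne_zero (by positivity) hs)
    have h2 : ∀ᶠ n : ℕ in atTop, 1 / ((n : ℝ) + 1) < |c / 2 * s| :=
      (tendsto_order.1 tendsto_one_div_add_atTop_nhds_zero_nat).2 _ h1
    refine tendsto_const_nhds.congr' ?_
    filter_upwards [h2] with n hn
    rw [Set.indicator_of_notMem]
    exact not_lt.mpr hn.le

/-- continuity of the truncated potential -/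
lemma trunc_cont (hG : S_G) (hμ : 0 < μ) (hγ : Continuous γ) (hc : 0 < c)
    (hch : ∀ s t, c * |s - t| ≤ ‖γ s - γ t‖) {ε : ℝ} (hε : 0 < ε) (α : ℝ) {g : ℝ → ℂ}
    (hg : BC g) :
    Continuous fun x : P => ∫ s, ((α * Gk μ (max ‖x - γ s‖ ε) : ℝ) : ℂ) * g s := by
  obtain ⟨hgc, M, hM⟩ := hg
  rw [continuous_iff_continuousAt]
  intro x₀
  set R : ℝ := ‖x₀ - γ 0‖ + 1 with hR
  have hR0 : 0 < R := by positivity
  have hms : MeasurableSet (Icc (-(2 * R / c)) (2 * R / c)) := measurableSet_Icc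
  refine continuousAt_of_dominated
    (bound := fun s => |α| * (Gk μ |c / 2 * s| +
      (Icc (-(2 * R / c)) (2 * R / c)).indicator (fun _ => Gk μ ε) s) * M) ?_ ?_ ?_ ?_
  · refine Eventually.of_forall fun x => ?_
    apply AEStronglyMeasurable.mul _ hgc.aestronglyMeasurable
    apply Measurable.aestronglyMeasurable
    apply Complex.measurable_ofReal.comp
    apply Measurable.const_mul
    exact (Gk_meas μ).comp (by fun_prop : Continuous fun s => max ‖x - γ s‖ ε).measurable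
  · filter_upwards [Metric.ball_mem_nhds x₀ one_pos] with x hx
    refine Eventually.of_forall fun s => ?_
    rw [norm_mul, Complex.norm_real, Real.norm_eq_abs, abs_mul, abs_of_nonneg (Gk_nonneg _ _)]
    have hx' : ‖x - x₀‖ < 1 := by rwa [Metric.mem_ball, dist_eq_norm] at hx
    have hM0 : 0 ≤ M := (norm_nonneg _).trans (hM 0)
    refine mul_le_mul ?_ (hM s) (norm_nonneg _) ?_
    · refine mul_le_mul_of_nonneg_left ?_ (abs_nonneg _)
      by_cases hs : s ∈ Icc (-(2 * R / c)) (2 * R / c)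
      · rw [Set.indicator_of_mem hs]
        have := Gk_anti hG hμ hε (le_max_right ‖x - γ s‖ ε)
        have h2 := Gk_nonneg μ |c / 2 * s|
        linarith
      · rw [Set.indicator_of_notMem hs, add_zero]
        have hs' : 2 * R / c < |s| := by
          by_contra hcon
          push Not at hcon
          exact hs (abs_le.mp hcon)
        have h1 : 2 * R < c * |s| := by
          rw [div_lt_iff₀ hc] at hs'
          linarith
        have hch0 := hch s 0
        rw [sub_zero] at hch0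
        have h3 : ‖γ s - γ 0‖ ≤ ‖x - γ s‖ + (‖x - x₀‖ + ‖x₀ - γ 0‖) := by
          have : γ s - γ 0 = -(x - γ s) + ((x - x₀) + (x₀ - γ 0)) := by abel
          rw [this]
          refine (norm_add_le _ _).trans ?_
          rw [norm_neg]
          gcongr
          exact norm_add_le _ _
        have h4 : |c / 2 * s| = c / 2 * |s| := by
          rw [abs_mul, abs_of_pos (by positivity : (0 : ℝ) < c / 2)]
        have h5 : 0 < |c / 2 * s| := by rw [h4]; nlinarith
        refine Gk_anti hG hμ h5 ?_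
        refine le_trans ?_ (le_max_left _ _)
        rw [h4]
        linarith
    · have h2 := Gk_nonneg μ |c / 2 * s|
      have h3 : 0 ≤ (Icc (-(2 * R / c)) (2 * R / c)).indicator (fun _ => Gk μ ε) s :=
        Set.indicator_nonneg (fun _ _ => Gk_nonneg _ _) _
      positivity
  · apply Integrable.mul_const
    apply Integrable.const_mul
    refine (int_line hG hμ hc).add ?_
    refine (integrable_indicator_iff hms).mpr ?_
    exact integrableOn_const (by simp) (by simp)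
  · refine Eventually.of_forall fun s => ?_
    apply ContinuousAt.mul _ continuousAt_const
    apply Complex.continuous_ofReal.continuousAt.comp
    apply ContinuousAt.mul continuousAt_const
    have h1 : ContinuousAt (Gk μ) (max ‖x₀ - γ s‖ ε) :=
      (hG.2.1 μ hμ).continuousAt (Ioi_mem_nhds (lt_of_lt_of_le hε (le_max_right _ _)))
    exact ContinuousAt.comp (f := fun x : P => max ‖x - γ s‖ ε) h1
      (by fun_prop : Continuous fun x : P => max ‖x - γ s‖ ε).continuousAt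

/-- the potential is bounded -/
lemma pot_bdd (hG : S_G) (hμ : 0 < μ) (hγ : Continuous γ) (hc : 0 < c)
    (hch : ∀ s t, c * |s - t| ≤ ‖γ s - γ t‖) (α : ℝ) {g : ℝ → ℂ} (hg : BC g) :
    ∃ C : ℝ, 0 ≤ C ∧ ∀ x : P, Integrable (fun s => ((α * Gk μ ‖x - γ s‖ : ℝ) : ℂ) * g s) ∧
      ∫ s, ‖((α * Gk μ ‖x - γ s‖ : ℝ) : ℂ) * g s‖ ≤ C ∧
      ‖∫ s, ((α * Gk μ ‖x - γ s‖ : ℝ) : ℂ) * g s‖ ≤ C := by
  obtain ⟨hgc, M, hM⟩ := hg
  have hM0 : 0 ≤ M := (norm_nonneg _).trans (hM 0)
  have hI0 : 0 ≤ ∫ s : ℝ, Gk μ |c / 2 * s| := integral_nonneg fun s => Gk_nonneg _ _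
  refine ⟨|α| * (∫ s : ℝ, Gk μ |c / 2 * s|) * M, by positivity, fun x => ?_⟩
  obtain ⟨hi, hle⟩ := int_curve hG hμ hγ hc hch x
  have hbd : ∀ s, ‖((α * Gk μ ‖x - γ s‖ : ℝ) : ℂ) * g s‖ ≤ |α| * Gk μ ‖x - γ s‖ * M := by
    intro s
    rw [norm_mul, Complex.norm_real, Real.norm_eq_abs, abs_mul, abs_of_nonneg (Gk_nonneg _ _)]
    have h1 := Gk_nonneg μ ‖x - γ s‖
    exact mul_le_mul_of_nonneg_left (hM s) (by positivity)
  have hi2 : Integrable (fun s => |α| * Gk μ ‖x - γ s‖ * M) := (hi.const_mul _).mul_const _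
  have hi1 : Integrable (fun s => ((α * Gk μ ‖x - γ s‖ : ℝ) : ℂ) * g s) := by
    refine hi2.mono' ?_ (Eventually.of_forall hbd)
    apply AEStronglyMeasurable.mul _ hgc.aestronglyMeasurable
    apply Measurable.aestronglyMeasurable
    apply Complex.measurable_ofReal.comp
    exact (meas_curve hγ μ x).const_mul _
  have h2 : ∫ s, ‖((α * Gk μ ‖x - γ s‖ : ℝ) : ℂ) * g s‖ ≤
      |α| * (∫ s : ℝ, Gk μ |c / 2 * s|) * M := by
    refine (integral_mono hi1.norm hi2 hbd).trans ?_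
    rw [integral_mul_const, integral_const_mul]
    gcongr
  exact ⟨hi1, h2, (norm_integral_le_integral_norm _).trans h2⟩

/-- the potential is continuous -/
lemma pot_cont (hG : S_G) (hμ : 0 < μ) (hγ : Continuous γ) (hc : 0 < c)
    (hch : ∀ s t, c * |s - t| ≤ ‖γ s - γ t‖) (α : ℝ) {g : ℝ → ℂ} (hg : BC g) :
    Continuous fun x : P => ∫ s, ((α * Gk μ ‖x - γ s‖ : ℝ) : ℂ) * g s := by
  obtain ⟨hgc, M, hM⟩ := hg
  have hM0 : 0 ≤ M := (norm_nonneg _).trans (hM 0)
  have hun : TendstoUniformly (fun (n : ℕ) (x : P) =>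
      ∫ s, ((α * Gk μ (max ‖x - γ s‖ (1 / ((n : ℝ) + 1))) : ℝ) : ℂ) * g s)
      (fun x : P => ∫ s, ((α * Gk μ ‖x - γ s‖ : ℝ) : ℂ) * g s) atTop := by
    rw [Metric.tendstoUniformly_iff]
    intro ε hε
    have hlim := (trunc_lim hG hμ hc (c := c)).const_mul (|α| * M)
    rw [mul_zero] at hlim
    filter_upwards [(tendsto_order.1 hlim).2 ε hε] with n hn x
    have hn0 : (0 : ℝ) < 1 / ((n : ℝ) + 1) := by positivity
    obtain ⟨hi2, hle⟩ := trunc_curve hG hμ hγ hc hch hn0 x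
    have hi := (int_curve hG hμ hγ hc hch x).1
    refine lt_of_le_of_lt ?_ hn
    rw [dist_eq_norm]
    have hA : Integrable (fun s => ((α * Gk μ ‖x - γ s‖ : ℝ) : ℂ) * g s) := by
      obtain ⟨C, _, hC⟩ := pot_bdd hG hμ hγ hc hch α (g := g) ⟨hgc, M, hM⟩
      exact (hC x).1
    have hB : Integrable (fun s =>
        ((α * Gk μ (max ‖x - γ s‖ (1 / ((n : ℝ) + 1))) : ℝ) : ℂ) * g s) := by
      have hBm : AEStronglyMeasurable (fun s =>
          ((α * Gk μ (max ‖x - γ s‖ (1 / ((n : ℝ) + 1))) : ℝ) : ℂ) * g s) := by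
        apply AEStronglyMeasurable.mul _ hgc.aestronglyMeasurable
        apply Measurable.aestronglyMeasurable
        apply Complex.measurable_ofReal.comp
        apply Measurable.const_mul
        exact (Gk_meas μ).comp
          (by fun_prop : Continuous fun s => max ‖x - γ s‖ (1 / ((n : ℝ) + 1))).measurable
      refine ((hi2.const_mul |α|).mul_const M).mono' hBm (Eventually.of_forall fun s => ?_)
      rw [norm_mul, Complex.norm_real, Real.norm_eq_abs, abs_mul,
        abs_of_nonneg (Gk_nonneg _ _)]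
      have h1 := Gk_nonneg μ (max ‖x - γ s‖ (1 / ((n : ℝ) + 1)))
      exact mul_le_mul_of_nonneg_left (hM s) (by positivity)
    rw [← integral_sub hA hB]
    calc ‖∫ s, (((α * Gk μ ‖x - γ s‖ : ℝ) : ℂ) * g s -
          ((α * Gk μ (max ‖x - γ s‖ (1 / ((n : ℝ) + 1))) : ℝ) : ℂ) * g s)‖
        ≤ ∫ s, |α| * M * |Gk μ ‖x - γ s‖ - Gk μ (max ‖x - γ s‖ (1 / ((n : ℝ) + 1)))| := by
          refine norm_integral_le_of_norm_le (((hi.sub hi2).abs).const_mul _)
            (Eventually.of_forall fun s => ?_)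
          rw [← sub_mul, ← Complex.ofReal_sub, norm_mul, Complex.norm_real, Real.norm_eq_abs,
            ← mul_sub, abs_mul]
          have := hM s
          have h0 : 0 ≤ |Gk μ ‖x - γ s‖ - Gk μ (max ‖x - γ s‖ (1 / ((n : ℝ) + 1)))| :=
            abs_nonneg _
          calc |α| * |Gk μ ‖x - γ s‖ - Gk μ (max ‖x - γ s‖ (1 / ((n : ℝ) + 1)))| * ‖g s‖
              ≤ |α| * |Gk μ ‖x - γ s‖ - Gk μ (max ‖x - γ s‖ (1 / ((n : ℝ) + 1)))| * M := by
                gcongr
            _ = _ := by ring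
      _ = |α| * M * ∫ s, |Gk μ ‖x - γ s‖ - Gk μ (max ‖x - γ s‖ (1 / ((n : ℝ) + 1)))| := by
          rw [integral_const_mul]
      _ ≤ _ := by gcongr
  refine hun.continuous (Frequently.of_forall fun n => ?_)
  exact trunc_cont hG hμ hγ hc hch (by positivity) α ⟨hgc, M, hM⟩

lemma lap_cont {φ : P → ℂ} (h : ContDiff ℝ ∞ φ) : Continuous (Laplacian.laplacian φ) := by
  rw [InnerProductSpace.laplacian_eq_iteratedFDeriv_stdOrthonormalBasis]
  refine continuous_finsetSum _ fun i _ => ?_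
  have h2 : Continuous (iteratedFDeriv ℝ 2 φ) := (contDiff_infty.mp h 2).continuous_iteratedFDeriv'
  exact (ContinuousMultilinearMap.apply ℝ (fun _ : Fin 2 => P) ℂ
    ![(stdOrthonormalBasis ℝ P) i, (stdOrthonormalBasis ℝ P) i]).continuous.comp h2

lemma lap_supp {φ : P → ℂ} (h : HasCompactSupport φ) :
    HasCompactSupport (Laplacian.laplacian φ) := by
  rw [InnerProductSpace.laplacian_eq_iteratedFDeriv_stdOrthonormalBasis]
  refine (h.iteratedFDeriv (𝕜 := ℝ) 2).mono fun x hx => ?_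
  rw [Function.mem_support] at hx ⊢
  intro h0
  apply hx
  simp [h0]

/-- the potential solves the equation in the weak sense -/
lemma pot_weak (hG : S_G) (hF : S_FUND) (hμ : 0 < μ) (hγ : Continuous γ) (hc : 0 < c)
    (hch : ∀ s t, c * |s - t| ≤ ‖γ s - γ t‖) (α : ℝ) {g : ℝ → ℂ} (hg : BC g)
    {φ : P → ℂ} (hφ : ContDiff ℝ ∞ φ) (hφs : HasCompactSupport φ) :
    ∫ x : P, (∫ s, ((α * Gk μ ‖x - γ s‖ : ℝ) : ℂ) * g s) *
        (-(Laplacian.laplacian φ x) + (μ ^ 2 : ℝ) * φ x) =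
      α * ∫ s, g s * φ (γ s) := by
  obtain ⟨C, hC0, hC⟩ := pot_bdd hG hμ hγ hc hch α hg
  obtain ⟨hgc, M, hM⟩ := hg
  set h : P → ℂ := fun x => -(Laplacian.laplacian φ x) + (μ ^ 2 : ℝ) * φ x with hh
  have hhc : Continuous h := ((lap_cont hφ).neg).add (continuous_const.mul hφ.continuous)
  have hhs : HasCompactSupport h :=
    HasCompactSupport.add (lap_supp hφs).neg (hφs.mul_left)
  have hint : Integrable (fun z : P × ℝ => ((α * Gk μ ‖z.1 - γ z.2‖ : ℝ) : ℂ) * g z.2 * h z.1)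
      (volume.prod volume) := by
    have hm : AEStronglyMeasurable (fun z : P × ℝ =>
        ((α * Gk μ ‖z.1 - γ z.2‖ : ℝ) : ℂ) * g z.2 * h z.1) (volume.prod volume) := by
      apply Measurable.aestronglyMeasurable
      apply Measurable.mul (Measurable.mul _ (hgc.measurable.comp measurable_snd))
        (hhc.measurable.comp measurable_fst)
      apply Complex.measurable_ofReal.comp
      apply Measurable.const_mul
      exact (Gk_meas μ).comp (by fun_prop : Continuous fun z : P × ℝ => ‖z.1 - γ z.2‖).measurable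
    rw [integrable_prod_iff hm]
    refine ⟨Eventually.of_forall fun x => (hC x).1.mul_const (h x), ?_⟩
    refine ((hhc.integrable_of_hasCompactSupport hhs).norm.const_mul C).mono'
      hm.norm.integral_prod_right' (Eventually.of_forall fun x => ?_)
    rw [Real.norm_eq_abs, abs_of_nonneg (integral_nonneg fun _ => norm_nonneg _)]
    simp only [norm_mul (_ * _) (h x)]
    rw [integral_mul_const]
    exact mul_le_mul_of_nonneg_right (hC x).2.1 (norm_nonneg _)
  calc ∫ x : P, (∫ s, ((α * Gk μ ‖x - γ s‖ : ℝ) : ℂ) * g s) * h x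
      = ∫ x : P, ∫ s, ((α * Gk μ ‖x - γ s‖ : ℝ) : ℂ) * g s * h x := by
        congr 1
        ext x
        rw [integral_mul_const]
    _ = ∫ s, ∫ x : P, ((α * Gk μ ‖x - γ s‖ : ℝ) : ℂ) * g s * h x := integral_integral_swap hint
    _ = ∫ s, (α : ℂ) * (g s * φ (γ s)) := by
        congr 1
        ext s
        rw [← (hF μ hμ).2 φ (γ s) hφ hφs, ← integral_const_mul, ← integral_const_mul]
        congr 1
        ext x
        simp only [hh]
        push_cast
        ring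
    _ = α * ∫ s, g s * φ (γ s) := by rw [integral_const_mul]

end

/-- LC15. Potentials of solutions of the equation on the curve are generalized eigenfunctions. -/
theorem t_REPB (hCH : S_CHORD) (hG : S_G) (hF : S_FUND) : S_REPB := by
  intro γ L k α f hγ hd hk hα hf hAG
  obtain ⟨c, hc, _, hch⟩ := hCH γ L hγ hd
  have hγc : Continuous γ := hγ.smooth.continuous
  have hμ := mu_pos hk hα
  have hcont := pot_cont hG hμ hγc hc hch α hf
  obtain ⟨C, hC0, hC⟩ := pot_bdd hG hμ hγc hc hch α hf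
  refine ⟨hcont, ⟨C, fun x => (hC x).2.2⟩, fun φ hφ hφs => ?_⟩
  have hw := pot_weak hG hF hμ hγc hc hch α hf hφ hφs
  have h1 : ∀ s, (∫ t, ((α * Gk (mu α k) ‖γ s - γ t‖ : ℝ) : ℂ) * f t) = f s := fun s => hAG s
  simp only [h1]
  set u : P → ℂ := fun x => ∫ s, ((α * Gk (mu α k) ‖x - γ s‖ : ℝ) : ℂ) * f s with hu
  have hi1 : Integrable (fun x => u x * -(Laplacian.laplacian φ x)) :=
    (hcont.mul (lap_cont hφ).neg).integrable_of_hasCompactSupport (lap_supp hφs).neg.mul_left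
  have hi2 : Integrable (fun x => u x * φ x) :=
    (hcont.mul hφ.continuous).integrable_of_hasCompactSupport hφs.mul_left
  have h2 : ∫ x, u x * (-(Laplacian.laplacian φ x) + ((mu α k) ^ 2 : ℝ) * φ x) =
      (∫ x, u x * -(Laplacian.laplacian φ x)) + ((mu α k) ^ 2 : ℝ) * ∫ x, u x * φ x := by
    rw [← integral_const_mul, ← integral_add hi1 (hi2.const_mul _)]
    congr 1
    ext x
    ring
  have h3 : (∫ x, u x * (-(Laplacian.laplacian φ x) + ((mu α k) ^ 2 : ℝ) * φ x)) =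
      α * ∫ s, f s * φ (γ s) := hw
  change (∫ x, u x * -(Laplacian.laplacian φ x)) - α * (∫ s, f s * φ (γ s)) =
    ((k ^ 2 - α ^ 2 / 4 : ℝ) : ℂ) * ∫ x, u x * φ x
  rw [← h3, h2, mu_sq hk hα]
  push_cast
  ring

end

end Pool.Agent.E8helper45.LC
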